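import Pool.Agent.H77.FLD.Gsy
import Pool.Agent.H77.FLD.Esc
import Pool.Agent.H77.WD.Tyf
import Pool.Agent.H77.PC3.CLo

/-!
# H77-PLF: frame over `K` for Sylow subgroups of exponent `p` (MP_b39724_nt, all classes), definitions

* `GX p N G P H`: a finite group `G` with surjective projections `pr : G → P`, `ph : G → H`, together injective, `H` without elements of order `p`, and
  corresponding representatives `cl` (in `G`) and `cP` (in `P`) of conjugacy classes of elements of order `p`.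
* `PU L c E Y`: the surjective homomorphisms of finite type to `P` which are typed or unramified outside `S0` and `E`, the product of the norms of the ramified
  primes outside `S0` and `E` at most `Y` (any behaviour at `S0` and `E`).
* THE P-LEVEL STATEMENTS (`P` a finite group of exponent `p`, `c` representatives of ALL its nontrivial classes, `N` their number, `K` any number field
  in `QBar` containing the roots of unity of order `p ^ M`, `M` depending on `P` only, `Ω = QBar`):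
  `PLim` (L): for every local type `φ₁` at `S0` the number of `SYG L Q c φ₁ Y` is asymptotic to a constant times `Y (log Y)^(N-1)`;
  `PUb` (U): finite subsets of `PU L c E Y` have at most `C (nr E)^η Y (1 + log Y)^(N-1)` elements, uniformly in `E`, for every `η > 0`;
  `PPos` (P): the lower bound `LBd` (H77/PC3/CLo.lean): at least `C Y (log Y)^(N-1)` surjective homomorphisms with inertia in the given classes.
  `PLv p`: all three, for all `P`.
-/

set_option autoImplicit false

open scoped NumberField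
open IsDedekindDomain H38.ML Filter Topology
open scoped Classical

noncomputable section

namespace H77.PLF

open H63.MA H38.BB H38.BG H57.PC H57.BRA H63.BU H77.PC3 H57.CC H38.AS H77.S0T H77.FLD

/-- a group with its projections -/
structure GX (p N : ℕ) (G P H : Type) [Group G] [Group P] [Group H] where
  pr : G →* P
  prs : Function.Surjective pr
  ph : G →* H
  phs : Function.Surjective ph
  inj : ∀ x y, pr x = pr y → ph x = ph y → x = y
  hH : ∀ h : H, h ^ p = 1 → h = 1
  cl : CL p N G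
  cP : CL p N P
  hcl : ∀ i, pr (cl.g i) = cP.g i

section gen

variable {K : Type} [Field K] [NumberField K] {Ω : Type} [Field Ω] [Algebra K Ω]
  {p N : ℕ} {ζ : K} {P : Type} [Group P]

/-- the surjective homomorphisms typed outside `S0` and `E` -/
def PU {D : RD0 K p ζ} (L : LDs D Ω) (c : CL p N P) (E : Finset (Pl K)) (Y : ℝ) :
    Set (Gal(Ω/K) →* P) :=
  {φ | H38.ML.FT φ ∧ Function.Surjective φ ∧
    (∀ v, v ∉ D.S0 → v ∉ E → (∀ τ ∈ inr L v, φ τ = 1) ∨ ∃ i, TyC c L φ i v) ∧
    ∀ T : Finset (Pl K), (∀ v ∈ T, v ∉ D.S0 ∧ v ∉ E ∧ ¬ ∀ τ ∈ inr L v, φ τ = 1) →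
      ∏ v ∈ T, (nm v : ℝ) ≤ Y}

/-- (L) -/
def PLim (p M : ℕ) {N : ℕ} {P : Type} [Group P] (c : CL p N P) : Prop :=
  ∀ (K : IntermediateField ℚ QBar) [NumberField K] (ζ : K) (_ : IsPrimitiveRoot ζ p) (z : K)
    (_ : IsPrimitiveRoot z (p ^ M)) (D : RD K p ζ) (L : LDs D.toRD0 QBar) (Q : DP K QBar)
    (_ : LQ L Q) (φ₁ : Gal(QBar/K) →* P) (_ : H38.ML.FT φ₁),
    ∃ L₀ : ℝ, Tendsto (fun Y : ℝ => ((SYG L Q c φ₁ Y).ncard : ℝ) /
      (Y * Real.log Y ^ (N - 1))) atTop (𝓝 L₀)

/-- (U) -/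
def PUb (p M : ℕ) {N : ℕ} {P : Type} [Group P] (c : CL p N P) : Prop :=
  ∀ (K : IntermediateField ℚ QBar) [NumberField K] (ζ : K) (_ : IsPrimitiveRoot ζ p) (z : K)
    (_ : IsPrimitiveRoot z (p ^ M)) (D : RD K p ζ) (L : LDs D.toRD0 QBar) (η : ℝ), 0 < η →
    ∃ C : ℝ, 0 < C ∧ ∀ (E : Finset (Pl K)) (Y : ℝ), 1 ≤ Y →
      ∀ Rs : Finset (Gal(QBar/K) →* P), (∀ ψ ∈ Rs, ψ ∈ PU L c E Y) →
        (Rs.card : ℝ) ≤ C * nr E ^ η * Y * (1 + Real.log Y) ^ (N - 1)

/-- (P) -/
def PPos (p M : ℕ) {N : ℕ} {P : Type} [Group P] (c : CL p N P) : Prop :=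
  ∀ (K : IntermediateField ℚ QBar) [NumberField K] (ζ : K) (_ : IsPrimitiveRoot ζ p) (z : K)
    (_ : IsPrimitiveRoot z (p ^ M)) (D : RD K p ζ) (L : LDs D.toRD0 QBar), LBd L c.g

end gen

/-- the P-level theorem -/
def PLv (p : ℕ) : Prop :=
  ∀ (P : Type) [Group P] [Finite P] (_ : ∀ x : P, x ^ p = 1) (_ : Nontrivial P),
    ∃ M : ℕ, 2 ≤ M ∧ ∀ (N : ℕ) (c : CL p N P) (_ : ∀ x : P, x ≠ 1 → ∃ i, IsConj x (c.g i)),
      PLim p M c ∧ PUb p M c ∧ PPos p M c

end H77.PLF
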