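import Pool.Agent.H77.PLF.Gx

/-!
# H77-PLF-GSX: the surjective homomorphisms to G with given local type at S0 (MP_b39724_nt)

* `HS`: the surjective homomorphisms to `H` unramified outside `S0` with given local type at `S0`.
* `xsy`: `#SYG = #SYG (P) * #HS`. `xsl`: the asymptotic formula for `SYG` (from `PLim`).
* `xty`: finitely many local types at `S0` of the homomorphisms to `G` typed outside `S0`.
-/

set_option autoImplicit false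

open scoped NumberField
open IsDedekindDomain H38.ML Filter Topology
open scoped Classical

noncomputable section

namespace H77.PLF

open H63.MA H38.BB H38.BG H57.PC H57.BRA H63.BU H77.PC3 H57.CC H38.AS H77.S0T H77.FLD

variable {K : Type} [Field K] [NumberField K] {Ω : Type} [Field Ω] [Algebra K Ω]
  [IsAlgClosure K Ω] {p N : ℕ} {ζ : K} {G P H : Type} [Group G] [Group P] [Group H]

theorem xsy_mem [Finite G] (hp : p.Prime) (Q : GX p N G P H)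
    (hP : IsPGroup p P) {D : RD0 K p ζ} (L : LDs D Ω) (Q' : DP K Ω) (φ₁ φ : Gal(Ω/K) →* G)
    (hφ : H38.ML.FT φ) (Y : ℝ) :
    φ ∈ SYG L Q' Q.cl φ₁ Y ↔ Q.pr.comp φ ∈ SYG L Q' Q.cP (Q.pr.comp φ₁) Y ∧
      Q.ph.comp φ ∈ HS L Q' (Q.ph.comp φ₁) := by
  constructor
  · rintro ⟨-, h2, h3, h4, h5⟩
    obtain ⟨h6, h7⟩ := (gx_teq Q D.S0 Q' φ φ₁).1 h3
    have hun : ∀ v, v ∉ D.S0 → ∀ τ ∈ inr L v, Q.ph (φ τ) = 1 := by
      intro v hv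
      rcases h4 v hv with h | ⟨i, hi⟩
      · exact ((gx_un Q L φ v).1 h).2
      · exact ((gx_ty hp Q hP L φ i v).1 hi).2
    refine ⟨⟨ft_comp _ _ hφ, Q.prs.comp h2, h6, fun v hv => ?_, fun T hT => ?_⟩,
      ft_comp _ _ hφ, Q.phs.comp h2, h7, hun⟩
    · rcases h4 v hv with h | ⟨i, hi⟩
      · exact Or.inl ((gx_un Q L φ v).1 h).1
      · exact Or.inr ⟨i, ((gx_ty hp Q hP L φ i v).1 hi).1⟩
    · refine h5 T fun v hv => ⟨(hT v hv).1, fun h => (hT v hv).2 ?_⟩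
      exact ((gx_un Q L φ v).1 h).1
  · rintro ⟨⟨-, g2, g3, g4, g5⟩, -, g6, g7, g8⟩
    refine ⟨hφ, gx_srj hp Q hP φ g2 g6, (gx_teq Q D.S0 Q' φ φ₁).2 ⟨g3, g7⟩, fun v hv => ?_,
      fun T hT => ?_⟩
    · rcases g4 v hv with h | ⟨i, hi⟩
      · exact Or.inl ((gx_un Q L φ v).2 ⟨h, g8 v hv⟩)
      · exact Or.inr ⟨i, (gx_ty hp Q hP L φ i v).2 ⟨hi, g8 v hv⟩⟩
    · refine g5 T fun v hv => ⟨(hT v hv).1, fun h => (hT v hv).2 ?_⟩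
      exact (gx_un Q L φ v).2 ⟨h, g8 v (hT v hv).1⟩

theorem xsy [Finite G] (hp : p.Prime) (Q : GX p N G P H)
    (hP : IsPGroup p P) {D : RD0 K p ζ} (L : LDs D Ω) (Q' : DP K Ω) (φ₁ : Gal(Ω/K) →* G)
    (Y : ℝ) : (SYG L Q' Q.cl φ₁ Y).ncard =
      (SYG L Q' Q.cP (Q.pr.comp φ₁) Y).ncard * (HS L Q' (Q.ph.comp φ₁)).ncard ∧
    ((SYG L Q' Q.cP (Q.pr.comp φ₁) Y).Finite → (HS L Q' (Q.ph.comp φ₁)).Finite →
      (SYG L Q' Q.cl φ₁ Y).Finite) := by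
  have hinj : Set.InjOn (fun φ : Gal(Ω/K) →* G => (Q.pr.comp φ, Q.ph.comp φ))
      (SYG L Q' Q.cl φ₁ Y) := by
    intro φ _ φ' _ h
    have h1 : Q.pr.comp φ = Q.pr.comp φ' := congrArg Prod.fst h
    have h2 : Q.ph.comp φ = Q.ph.comp φ' := congrArg Prod.snd h
    ext σ
    exact Q.inj _ _ (DFunLike.congr_fun h1 σ) (DFunLike.congr_fun h2 σ)
  have himg : (fun φ : Gal(Ω/K) →* G => (Q.pr.comp φ, Q.ph.comp φ)) '' (SYG L Q' Q.cl φ₁ Y) =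
      (SYG L Q' Q.cP (Q.pr.comp φ₁) Y) ×ˢ (HS L Q' (Q.ph.comp φ₁)) := by
    ext ⟨α, β⟩
    rw [Set.mem_image, Set.mem_prod]
    constructor
    · rintro ⟨φ, hφ, h⟩
      have h1 : Q.pr.comp φ = α := congrArg Prod.fst h
      have h2 : Q.ph.comp φ = β := congrArg Prod.snd h
      have h3 := (xsy_mem hp Q hP L Q' φ₁ φ hφ.1 Y).1 hφ
      rw [h1, h2] at h3
      exact h3
    · rintro ⟨h1, h2⟩
      obtain ⟨φ, h3, h4, h5⟩ := gx_pair hp Q hP α β h1.1 h2.1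
      refine ⟨φ, (xsy_mem hp Q hP L Q' φ₁ φ h3 Y).2 ⟨by rw [h4]; exact h1, by rw [h5]; exact h2⟩,
        Prod.ext h4 h5⟩
  constructor
  · rw [← Set.ncard_prod, ← himg, hinj.ncard_image]
  · intro h1 h2
    refine Set.Finite.of_finite_image ?_ hinj
    rw [himg]
    exact h1.prod h2

/-- the homomorphisms to `H` unramified outside `S0` -/
theorem xhs_fin [Finite G] (hnil : Group.IsNilpotent G) (Q : GX p N G P H)
    {D : RD0 K p ζ} (L : LDs D Ω) (z : K) (hz : IsPrimitiveRoot z (Nat.card G))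
    (hS : ∀ v : Pl K, ((Nat.card G : ℕ) : 𝓞 K) ∈ v.asIdeal → v ∈ D.S0) :
    {β : Gal(Ω/K) →* H | H38.ML.FT β ∧ ∀ v, v ∉ D.S0 → ∀ τ ∈ inr L v, β τ = 1}.Finite := by
  haveI : Finite H := Finite.of_surjective _ Q.phs
  have hnil' : Group.IsNilpotent H := Group.nilpotent_of_surjective Q.ph Q.phs
  obtain ⟨C, hC⟩ := ugsr D L (Nat.card G) Nat.card_pos z hz hS H hnil'
    (Subgroup.card_dvd_of_surjective _ Q.phs)
  by_contra hinf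
  obtain ⟨F, hF1, hF2⟩ := Set.Infinite.exists_subset_card_eq hinf (C + 1)
  have h1 := hC F (fun φ hφ => (hF1 hφ).1) (fun φ hφ φ' hφ' v hv τ hτ => by
    rw [(hF1 hφ).2 v hv τ hτ, (hF1 hφ').2 v hv τ hτ])
  omega

/-- finitely many local types -/
theorem xty [NeZero p] [Finite G] (hp : p.Prime) (hp2 : MOne p K) (hζ : IsPrimitiveRoot ζ p)
    (hnil : Group.IsNilpotent G) (Q : GX p N G P H) (hP : IsPGroup p P)
    (D : RD0 K p ζ) (L : LDs D Ω) (Q' : DP K Ω) (z : K)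
    (hz : IsPrimitiveRoot z (Nat.card G))
    (hS : ∀ v : Pl K, ((Nat.card G : ℕ) : 𝓞 K) ∈ v.asIdeal → v ∈ D.S0) :
    ∃ R₀ : Finset (Gal(Ω/K) →* G), (∀ φ ∈ R₀, H38.ML.FT φ) ∧
      ∀ φ : Gal(Ω/K) →* G, H38.ML.FT φ → (∀ v, Rm L φ v → ∃ i, TyC Q.cl L φ i v) →
        ∃ φ' ∈ R₀, Teq D.S0 Q' φ φ' := by
  have : Finite P := Finite.of_surjective _ Q.prs
  obtain ⟨Rs, hR1, hR2⟩ := H77.WD.ty_fin hp hp2 hζ D L Q' _ P rfl hP
  obtain ⟨Bs, hBs⟩ : ∃ Bs : Finset (Gal(Ω/K) →* H), Bs = (xhs_fin hnil Q L z hz hS).toFinset :=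
    ⟨_, rfl⟩
  have hB : ∀ β, β ∈ Bs ↔ H38.ML.FT β ∧ ∀ v, v ∉ D.S0 → ∀ τ ∈ inr L v, β τ = 1 := by
    intro β
    rw [hBs, Set.Finite.mem_toFinset]
    rfl
  have hex : ∀ z : {α // α ∈ Rs} × {β // β ∈ Bs}, ∃ φ : Gal(Ω/K) →* G, H38.ML.FT φ ∧
      Q.pr.comp φ = z.1.1 ∧ Q.ph.comp φ = z.2.1 := fun z =>
    gx_pair hp Q hP z.1.1 z.2.1 (hR1 _ z.1.2) ((hB _).1 z.2.2).1
  choose F hF1 hF2 hF3 using hex
  refine ⟨Finset.univ.image F, fun φ hφ => ?_, fun φ hφ hty => ?_⟩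
  · obtain ⟨z, -, rfl⟩ := Finset.mem_image.1 hφ
    exact hF1 z
  · obtain ⟨α, hα, h1⟩ := hR2 (Q.pr.comp φ) (ft_comp _ _ hφ)
    have h2 : Q.ph.comp φ ∈ Bs := by
      rw [hB]
      refine ⟨ft_comp _ _ hφ, fun v hv τ hτ => ?_⟩
      by_cases h : ∀ τ ∈ inr L v, φ τ = 1
      · rw [MonoidHom.comp_apply, h τ hτ, map_one]
      · push Not at h
        obtain ⟨i, hi⟩ := hty v ⟨hv, h⟩
        exact ((gx_ty hp Q hP L φ i v).1 hi).2 τ hτ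
    refine ⟨F (⟨α, hα⟩, ⟨_, h2⟩), Finset.mem_image.2 ⟨_, Finset.mem_univ _, rfl⟩, ?_⟩
    rw [gx_teq Q, hF2, hF3]
    exact ⟨h1, fun v hv σ hσ => rfl⟩

theorem syg_sub {P : Type} [Group P] {D : RD0 K p ζ} (L : LDs D Ω) (Q' : DP K Ω)
    (c : CL p N P) (φ₁ : Gal(Ω/K) →* P) (Y : ℝ) : SYG L Q' c φ₁ Y ⊆ PU L c ∅ Y := by
  rintro φ ⟨h1, h2, -, h4, h5⟩
  exact ⟨h1, h2, fun v hv _ => h4 v hv, fun T hT => h5 T fun v hv => ⟨(hT v hv).1, (hT v hv).2.2⟩⟩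

theorem pu_mono {P : Type} [Group P] {D : RD0 K p ζ} (L : LDs D Ω) (c : CL p N P)
    (E : Finset (Pl K)) {Y Y' : ℝ} (h : Y ≤ Y') : PU L c E Y ⊆ PU L c E Y' :=
  fun _ hφ => ⟨hφ.1, hφ.2.1, hφ.2.2.1, fun T hT => (hφ.2.2.2 T hT).trans h⟩

/-- `SYG` is finite -/
theorem xsf {K : IntermediateField ℚ QBar} [NumberField K] {ζ : K}
    [Finite G] (hp : p.Prime) (hζ : IsPrimitiveRoot ζ p) {M : ℕ} {z₂ : K}
    (hz2 : IsPrimitiveRoot z₂ (p ^ M))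
    (hnil : Group.IsNilpotent G) (Q : GX p N G P H) (hP : IsPGroup p P) (hU : PUb p M Q.cP)
    (D : RD K p ζ) (L : LDs D.toRD0 QBar) (Q' : DP K QBar) (z : K)
    (hz : IsPrimitiveRoot z (Nat.card G))
    (hS : ∀ v : Pl K, ((Nat.card G : ℕ) : 𝓞 K) ∈ v.asIdeal → v ∈ D.S0)
    (φ₁ : Gal(QBar/K) →* G) (Y : ℝ) : (SYG L Q' Q.cl φ₁ Y).Finite := by
  refine (xsy hp Q hP L Q' φ₁ Y).2 ?_ ?_
  · obtain ⟨C, -, h⟩ := hU K ζ hζ z₂ hz2 D L 1 one_pos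
    refine Set.Finite.subset ?_ ((syg_sub L Q' Q.cP _ Y).trans (pu_mono L Q.cP ∅
      (le_max_left Y 1)))
    by_contra hinf
    obtain ⟨F, hF1, hF2⟩ := Set.Infinite.exists_subset_card_eq hinf
      (⌊C * nr (∅ : Finset (Pl K)) ^ (1 : ℝ) * max Y 1 * (1 + Real.log (max Y 1)) ^ (N - 1)⌋₊ + 1)
    have h2 := h ∅ (max Y 1) (le_max_right _ _) F fun ψ hψ => hF1 hψ
    rw [hF2] at h2
    push_cast at h2
    have h3 := Nat.lt_floor_add_one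
      (C * nr (∅ : Finset (Pl K)) ^ (1 : ℝ) * max Y 1 * (1 + Real.log (max Y 1)) ^ (N - 1))
    linarith
  · exact (xhs_fin hnil Q L z hz hS).subset fun β hβ => ⟨hβ.1, hβ.2.2.2⟩

/-- the asymptotic formula for `SYG` -/
theorem xsl {K : IntermediateField ℚ QBar} [NumberField K] {ζ : K}
    [Finite G] (hp : p.Prime) (hζ : IsPrimitiveRoot ζ p) {M : ℕ} {z₂ : K}
    (hz2 : IsPrimitiveRoot z₂ (p ^ M)) (Q : GX p N G P H) (hP : IsPGroup p P)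
    (hL : PLim p M Q.cP) (D : RD K p ζ) (L : LDs D.toRD0 QBar) (Q' : DP K QBar)
    (hLQ : LQ L Q') (φ₁ : Gal(QBar/K) →* G) (h₁ : H38.ML.FT φ₁) :
    ∃ L₀ : ℝ, Tendsto (fun Y : ℝ => ((SYG L Q' Q.cl φ₁ Y).ncard : ℝ) /
      (Y * Real.log Y ^ (N - 1))) atTop (𝓝 L₀) := by
  obtain ⟨l, hl⟩ := hL K ζ hζ z₂ hz2 D L Q' hLQ (Q.pr.comp φ₁) (ft_comp _ _ h₁)
  refine ⟨l * ((HS L Q' (Q.ph.comp φ₁)).ncard : ℝ),
    (hl.mul_const ((HS L Q' (Q.ph.comp φ₁)).ncard : ℝ)).congr fun Y => ?_⟩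
  rw [(xsy hp Q hP L Q' φ₁ Y).1]
  push_cast
  ring

end H77.PLF
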