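import Pool.Agent.H77.PLF.Gsx
import Pool.Agent.H77.PC3.CGu

/-!
# H77-PLF-GUX: domination (as H77/FLD/Gue.lean, from the P-level bound `PUb`)

* `gcnt`: the number of homomorphisms `φ` with given set `E` of untyped primes and bounded ramification is at most
  `C #G^#E` times the number of the homomorphisms `pr ∘ φ`, so at most `C #G^#E (nr E)^η UY (1 + log UY)^(N-1)`.
* `gux`: summable bounds; `gfx`: the number of homomorphisms with bounded ramification is finite and bounded.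
-/

set_option autoImplicit false

open scoped NumberField
open IsDedekindDomain H38.ML
open scoped Classical

noncomputable section

namespace H77.PLF

open H63.MA H38.BB H38.BG H57.PC H57.BRA H63.BU H77.PC3 H57.CC H38.AS H77.S0T H77.AB H77.FLD

theorem gcnt {K : IntermediateField ℚ QBar} [NumberField K] {p : ℕ} {ζ : K} {N : ℕ}
    {G P H : Type}
    [Group G] [Finite G] [Group P] [Group H] (hp : p.Prime)
    (hζ : IsPrimitiveRoot ζ p) {M : ℕ} {z₂ : K} (hz2 : IsPrimitiveRoot z₂ (p ^ M))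
    (D : RD K p ζ) (L : LDs D.toRD0 QBar) (hnil : Group.IsNilpotent G) (Q : GX p N G P H)
    (hP : IsPGroup p P) (hU : PUb p M Q.cP) (z : K) (hz : IsPrimitiveRoot z (Nat.card G))
    (hS : ∀ v : Pl K, ((Nat.card G : ℕ) : 𝓞 K) ∈ v.asIdeal → v ∈ D.S0) (a : ℕ) (ha : 0 < a)
    (ix : Subgroup G → ℕ) (h1 : ∀ H, H ≠ ⊥ → a ≤ ix H)
    (h2 : ∀ g : G, g ≠ 1 → ix (Subgroup.zpowers g) ≤ a → ∃ i, IsConj g (Q.cl.g i))
    (η : ℝ) (hη : 0 < η) :
    ∃ C : ℝ, 0 < C ∧ ∀ (B : ℝ) (E : Finset (Pl K)), 3 ≤ B → ∀ Rs : Finset (Gal(QBar/K) →* G),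
      (∀ φ ∈ Rs, H38.ML.FT φ ∧ Function.Surjective φ ∧ (∀ T : Finset (Pl K),
        (∀ v ∈ T, v ∉ D.S0) → ∏ v ∈ T, (nm v : ℝ) ^ ix ((inr L v).map φ) ≤ B) ∧
        ∀ v, v ∈ E ↔ Rm L φ v ∧ ∀ i, ¬ TyC Q.cl L φ i v) →
      (Rs.card : ℝ) ≤ C * ((Nat.card G : ℝ) ^ E.card * nr E ^ η *
        ∏ v ∈ E, (nm v : ℝ) ^ (-((co a v : ℝ) / (a : ℝ)))) *
          (B ^ (1 / (a : ℝ)) * Real.log B ^ (N - 1)) ∧ (Rs.Nonempty → nr E ≤ B) := by
  have hfin : Fintype G := Fintype.ofFinite G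
  have haR : (0 : ℝ) < (a : ℝ) := by exact_mod_cast ha
  have ha1 : (1 : ℝ) ≤ (a : ℝ) := by exact_mod_cast ha
  obtain ⟨C₀, hC₀⟩ := ugsr D.toRD0 L (Nat.card G) Nat.card_pos z hz hS G hnil dvd_rfl
  obtain ⟨C₂, hC₂, hub⟩ := hU K ζ hζ z₂ hz2 D L η hη
  refine ⟨(C₀ + 1) * C₂ * 2 ^ (N - 1), by positivity, ?_⟩
  intro B E hB Rs hRs
  have hB1 : 1 ≤ B := by linarith
  have hB0 : 0 < B := by linarith
  have hlog1 : 1 ≤ Real.log B := by
    rw [Real.le_log_iff_exp_le hB0]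
    exact Real.exp_one_lt_three.le.trans hB
  have hnr := one_le_nr E
  have hpr : 0 ≤ ∏ v ∈ E, (nm v : ℝ) ^ (-((co a v : ℝ) / (a : ℝ))) :=
    Finset.prod_nonneg fun v _ => Real.rpow_nonneg (Nat.cast_nonneg _) _
  have hrhs : 0 ≤ (C₀ + 1) * C₂ * 2 ^ (N - 1) * ((Nat.card G : ℝ) ^ E.card * nr E ^ η *
        ∏ v ∈ E, (nm v : ℝ) ^ (-((co a v : ℝ) / (a : ℝ)))) *
          (B ^ (1 / (a : ℝ)) * Real.log B ^ (N - 1)) := by positivity
  rcases Rs.eq_empty_or_nonempty with h0 | ⟨φ₀, hφ₀⟩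
  · rw [h0, Finset.card_empty, Nat.cast_zero]
    exact ⟨hrhs, fun h => absurd h Finset.not_nonempty_empty⟩
  -- the size of the parameters
  have hcn : ∀ φ ∈ Rs, ∀ f : Fin N → Finset (Pl K), (∀ i v, v ∈ f i ↔ TyC Q.cl L φ i v) →
      ∏ i, nr (f i) ≤ UY B a E ∧ Dj f ∧ 1 ≤ UY B a E ∧ nr E ≤ B := by
    intro φ hφ f hf
    obtain ⟨r1, -, r2, r3⟩ := hRs φ hφ
    obtain ⟨g1, g2, -, g3, g4, -⟩ :=
      ccnt_nr hp hζ D.toRD0 L Q.cl hS a ha ix h1 h2 φ r1 B r2 f E hf r3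
    exact ⟨g1, g2, g3, g4⟩
  have hsets : ∀ φ ∈ Rs, ∃ f : Fin N → Finset (Pl K), ∀ i v, v ∈ f i ↔ TyC Q.cl L φ i v := by
    intro φ hφ
    obtain ⟨f, -, hf, -⟩ := csets L Q.cl φ (hRs φ hφ).1
    exact ⟨f, hf⟩
  obtain ⟨f₀, hf₀⟩ := hsets φ₀ hφ₀
  obtain ⟨-, -, hUY1, hEB⟩ := hcn φ₀ hφ₀ f₀ hf₀
  refine ⟨?_, fun _ => hEB⟩
  have hUY := uy_le B hB1 a E
  have hUY0 : 0 ≤ UY B a E := hUY.1
  have hlogU : Real.log (UY B a E) ≤ Real.log B := by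
    have h5 : UY B a E ≤ B := by
      refine hUY.2.trans ?_
      calc B ^ (1 / (a : ℝ)) ≤ B ^ (1 : ℝ) := by
            refine Real.rpow_le_rpow_of_exponent_le hB1 ?_
            rw [div_le_one haR]
            exact ha1
        _ = B := Real.rpow_one B
    exact Real.log_le_log (by linarith) h5
  have hlogU0 : 0 ≤ Real.log (UY B a E) := Real.log_nonneg hUY1
  have h6 : (1 + Real.log (UY B a E)) ^ (N - 1) ≤ (2 * Real.log B) ^ (N - 1) :=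
    pow_le_pow_left₀ (by linarith) (by linarith) _
  -- the components in `P`
  have hPU : ∀ φ ∈ Rs, Q.pr.comp φ ∈ PU L Q.cP E (UY B a E) := by
    intro φ hφ
    obtain ⟨r1, r2, r3, r4⟩ := hRs φ hφ
    obtain ⟨f, hf⟩ := hsets φ hφ
    obtain ⟨g1, g2, -, -⟩ := hcn φ hφ f hf
    have hty : ∀ v, v ∉ D.S0 → v ∉ E → (∀ τ ∈ inr L v, φ τ = 1) ∨ ∃ i, TyC Q.cl L φ i v := by
      intro v hv hvE
      by_cases h : ∀ τ ∈ inr L v, φ τ = 1
      · exact Or.inl h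
      · right
        by_contra hcon
        push Not at hcon h
        exact hvE ((r4 v).2 ⟨⟨hv, h⟩, hcon⟩)
    refine ⟨ft_comp _ _ r1, Q.prs.comp r2, fun v hv hvE => ?_, fun T hT => ?_⟩
    · rcases hty v hv hvE with h | ⟨i, hi⟩
      · exact Or.inl fun τ hτ => by rw [MonoidHom.comp_apply, h τ hτ, map_one]
      · exact Or.inr ⟨i, ((gx_ty hp Q hP L φ i v).1 hi).1⟩
    · have hsub : T ⊆ Finset.univ.biUnion f := by
        intro v hv
        obtain ⟨g5, g6, g7⟩ := hT v hv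
        rcases hty v g5 g6 with h | ⟨i, hi⟩
        · exact absurd (fun τ hτ => by rw [MonoidHom.comp_apply, h τ hτ, map_one]) g7
        · exact Finset.mem_biUnion.2 ⟨i, Finset.mem_univ _, (hf i v).2 hi⟩
      calc ∏ v ∈ T, (nm v : ℝ) ≤ ∏ v ∈ Finset.univ.biUnion f, (nm v : ℝ) := by
            rw [← Finset.prod_sdiff hsub]
            refine le_mul_of_one_le_left (Finset.prod_nonneg fun v _ => Nat.cast_nonneg _) ?_
            exact one_le_nr _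
        _ = ∏ i, nr (f i) := by
            rw [Finset.prod_biUnion fun i _ j _ hij => g2 i j hij]
            rfl
        _ ≤ _ := g1
  have h3 := fun v => uinr_cyc L (Nat.card G) hS (H := G) rfl Rs (fun φ hφ => (hRs φ hφ).1) v
  choose τ hτ hτ2 using h3
  -- the labels
  obtain ⟨lab, hlab⟩ : ∃ lab : (Gal(QBar/K) →* G) → (↥E → G), lab = fun φ v => φ (τ v.1) :=
    ⟨_, rfl⟩
  have hagree : ∀ φ ∈ Rs, ∀ φ' ∈ Rs, lab φ = lab φ' → ∀ v ∈ E, ∀ σ ∈ inr L v, φ σ = φ' σ := by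
    intro φ hφ φ' hφ' h v hv σ hσ
    obtain ⟨k, hk⟩ := hτ2 v σ hσ
    have h4 : φ (τ v) = φ' (τ v) := by
      rw [hlab] at h
      exact congrFun h ⟨v, hv⟩
    rw [hk φ hφ, hk φ' hφ', h4]
  set A : Finset (Gal(QBar/K) →* P) := Rs.image fun φ => Q.pr.comp φ with hA
  have hAc : (A.card : ℝ) ≤ C₂ * nr E ^ η * UY B a E * (1 + Real.log (UY B a E)) ^ (N - 1) := by
    refine hub E (UY B a E) hUY1 A fun ψ hψ => ?_
    obtain ⟨φ, hφ, rfl⟩ := Finset.mem_image.1 hψ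
    exact hPU φ hφ
  have hfib : ∀ x ∈ A ×ˢ (Finset.univ : Finset (↥E → G)),
      (Rs.filter fun φ => (Q.pr.comp φ, lab φ) = x).card ≤ C₀ := by
    intro x _
    refine hC₀ _ (fun φ hφ => (hRs φ (Finset.mem_filter.1 hφ).1).1) ?_
    intro φ hφ φ' hφ' v hv σ hσ
    obtain ⟨hφ, e1⟩ := Finset.mem_filter.1 hφ
    obtain ⟨hφ', e2⟩ := Finset.mem_filter.1 hφ'
    by_cases hvE : v ∈ E
    · exact hagree φ hφ φ' hφ' ((congrArg Prod.snd e1).trans (congrArg Prod.snd e2).symm) v hvE σ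
        hσ
    · have key : ∀ φ ∈ Rs, Q.ph (φ σ) = 1 := by
        intro φ hφ
        obtain ⟨r1, r2, r3, r4⟩ := hRs φ hφ
        by_cases h : ∀ τ ∈ inr L v, φ τ = 1
        · rw [h σ hσ, map_one]
        · by_cases h' : ∃ i, TyC Q.cl L φ i v
          · obtain ⟨i, hi⟩ := h'
            exact ((gx_ty hp Q hP L φ i v).1 hi).2 σ hσ
          · push Not at h h'
            exact absurd ((r4 v).2 ⟨⟨hv, h⟩, h'⟩) hvE
      refine Q.inj _ _ ?_ ((key φ hφ).trans (key φ' hφ').symm)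
      exact DFunLike.congr_fun ((congrArg Prod.fst e1).trans (congrArg Prod.fst e2).symm) σ
  have hcard : Rs.card ≤ (A.card * Fintype.card (↥E → G)) * C₀ := by
    have h7 := Finset.card_eq_sum_card_fiberwise (f := fun φ => (Q.pr.comp φ, lab φ)) (s := Rs)
      (t := A ×ˢ (Finset.univ : Finset (↥E → G))) (fun φ hφ => by
        rw [Finset.coe_product]
        exact ⟨Finset.mem_image.2 ⟨φ, hφ, rfl⟩, Finset.mem_coe.2 (Finset.mem_univ _)⟩)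
    rw [h7]
    refine (Finset.sum_le_sum hfib).trans ?_
    rw [Finset.sum_const, Finset.card_product, Finset.card_univ, smul_eq_mul]
  have hcard2 : (Rs.card : ℝ) ≤ (A.card : ℝ) * (Nat.card G : ℝ) ^ E.card * C₀ := by
    have h7 : Fintype.card (↥E → G) = Nat.card G ^ E.card := by
      rw [Fintype.card_fun, Fintype.card_coe, Nat.card_eq_fintype_card]
    rw [h7] at hcard
    exact_mod_cast hcard
  have hg0 : (0 : ℝ) ≤ (Nat.card G : ℝ) ^ E.card := by positivity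
  calc (Rs.card : ℝ) ≤ (A.card : ℝ) * (Nat.card G : ℝ) ^ E.card * C₀ := hcard2
    _ ≤ (C₂ * nr E ^ η * UY B a E * (2 * Real.log B) ^ (N - 1)) *
        (Nat.card G : ℝ) ^ E.card * (C₀ + 1) := by
        have h8 : (A.card : ℝ) ≤ C₂ * nr E ^ η * UY B a E * (2 * Real.log B) ^ (N - 1) :=
          hAc.trans (mul_le_mul_of_nonneg_left h6 (by positivity))
        have h9 : 0 ≤ C₂ * nr E ^ η * UY B a E * (2 * Real.log B) ^ (N - 1) := by positivity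
        calc (A.card : ℝ) * (Nat.card G : ℝ) ^ E.card * C₀ ≤
            (C₂ * nr E ^ η * UY B a E * (2 * Real.log B) ^ (N - 1)) *
              (Nat.card G : ℝ) ^ E.card * C₀ :=
              mul_le_mul_of_nonneg_right (mul_le_mul_of_nonneg_right h8 hg0) (Nat.cast_nonneg _)
          _ ≤ _ := mul_le_mul_of_nonneg_left (by linarith) (mul_nonneg h9 hg0)
    _ = _ := by
        have e2 : UY B a E = B ^ (1 / (a : ℝ)) *
            ∏ v ∈ E, (nm v : ℝ) ^ (-((co a v : ℝ) / (a : ℝ))) := rfl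
        rw [e2, mul_pow]
        ring

theorem gux {K : IntermediateField ℚ QBar} [NumberField K] {p : ℕ} {ζ : K} {N : ℕ}
    {G P H : Type}
    [Group G] [Finite G] [Group P] [Group H] (hp : p.Prime)
    (hζ : IsPrimitiveRoot ζ p) {M : ℕ} {z₂ : K} (hz2 : IsPrimitiveRoot z₂ (p ^ M))
    (D : RD K p ζ) (L : LDs D.toRD0 QBar) (hnil : Group.IsNilpotent G) (Q : GX p N G P H)
    (hP : IsPGroup p P) (hU : PUb p M Q.cP) (z : K) (hz : IsPrimitiveRoot z (Nat.card G))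
    (hS : ∀ v : Pl K, ((Nat.card G : ℕ) : 𝓞 K) ∈ v.asIdeal → v ∈ D.S0) (a : ℕ) (ha : 0 < a)
    (ix : Subgroup G → ℕ) (h1 : ∀ H, H ≠ ⊥ → a ≤ ix H)
    (h2 : ∀ g : G, g ≠ 1 → ix (Subgroup.zpowers g) ≤ a → ∃ i, IsConj g (Q.cl.g i)) :
    (∃ wt : Finset (Pl K) → ℝ, Summable wt ∧ (∀ E, 0 ≤ wt E) ∧
      ∀ (B : ℝ) (E : Finset (Pl K)), 3 ≤ B → ∀ Rs : Finset (Gal(QBar/K) →* G),
      (∀ φ ∈ Rs, H38.ML.FT φ ∧ Function.Surjective φ ∧ (∀ T : Finset (Pl K),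
        (∀ v ∈ T, v ∉ D.S0) → ∏ v ∈ T, (nm v : ℝ) ^ ix ((inr L v).map φ) ≤ B) ∧
        ∀ v, v ∈ E ↔ Rm L φ v ∧ ∀ i, ¬ TyC Q.cl L φ i v) →
      (Rs.card : ℝ) ≤ wt E * (B ^ (1 / (a : ℝ)) * Real.log B ^ (N - 1))) ∧
    ∃ C : ℝ, 0 < C ∧ ∀ B : ℝ, 3 ≤ B → ∀ Rs : Finset (Gal(QBar/K) →* G),
      (∀ φ ∈ Rs, H38.ML.FT φ ∧ Function.Surjective φ ∧ ∀ T : Finset (Pl K),
        (∀ v ∈ T, v ∉ D.S0) → ∏ v ∈ T, (nm v : ℝ) ^ ix ((inr L v).map φ) ≤ B) →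
      (Rs.card : ℝ) ≤ C * (B ^ (1 / (a : ℝ)) * Real.log B ^ (N - 1)) := by
  obtain ⟨C, hC, hcnt⟩ := gcnt hp hζ hz2 D L hnil Q hP hU z hz hS a ha ix h1 h2
    (1 / (4 * (a : ℝ))) (by
      have : (0 : ℝ) < (a : ℝ) := by exact_mod_cast ha
      positivity)
  obtain ⟨C₃, hC₃, hsum⟩ := usum K a ha (Nat.card G : ℝ) (Nat.cast_nonneg _)
  have hbase0 : ∀ E : Finset (Pl K), 0 ≤ (Nat.card G : ℝ) ^ E.card * nr E ^ (1 / (4 * (a : ℝ))) *
      ∏ v ∈ E, (nm v : ℝ) ^ (-((co a v : ℝ) / (a : ℝ))) := by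
    intro E
    have hnr := one_le_nr E
    have : 0 ≤ ∏ v ∈ E, (nm v : ℝ) ^ (-((co a v : ℝ) / (a : ℝ))) :=
      Finset.prod_nonneg fun v _ => Real.rpow_nonneg (Nat.cast_nonneg _) _
    positivity
  refine ⟨⟨fun E => C * ((Nat.card G : ℝ) ^ E.card * nr E ^ (1 / (4 * (a : ℝ))) *
      ∏ v ∈ E, (nm v : ℝ) ^ (-((co a v : ℝ) / (a : ℝ)))),
    Summable.mul_left _ (summable_of_sum_le hbase0 hsum),
    fun E => mul_nonneg hC.le (hbase0 E), fun B E hB Rs hRs => (hcnt B E hB Rs hRs).1⟩,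
    C * C₃, by positivity, fun B hB Rs hRs => ?_⟩
  have hex : ∀ φ : Gal(QBar/K) →* G, ∃ E : Finset (Pl K), φ ∈ Rs →
      ∀ v, v ∈ E ↔ Rm L φ v ∧ ∀ i, ¬ TyC Q.cl L φ i v := by
    intro φ
    by_cases hφ : φ ∈ Rs
    · obtain ⟨-, E, -, hE⟩ := csets L Q.cl φ (hRs φ hφ).1
      exact ⟨E, fun _ => hE⟩
    · exact ⟨∅, fun h => absurd h hφ⟩
  choose e he using hex
  have hlog : 0 ≤ Real.log B := Real.log_nonneg (by linarith)
  have hX : 0 ≤ B ^ (1 / (a : ℝ)) * Real.log B ^ (N - 1) :=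
    mul_nonneg (Real.rpow_nonneg (by linarith) _) (pow_nonneg hlog _)
  rw [Finset.card_eq_sum_card_image e]
  push_cast
  calc ∑ E ∈ Rs.image e, ((Rs.filter fun φ => e φ = E).card : ℝ) ≤
      ∑ E ∈ Rs.image e, C * ((Nat.card G : ℝ) ^ E.card * nr E ^ (1 / (4 * (a : ℝ))) *
        ∏ v ∈ E, (nm v : ℝ) ^ (-((co a v : ℝ) / (a : ℝ)))) *
          (B ^ (1 / (a : ℝ)) * Real.log B ^ (N - 1)) := by
        refine Finset.sum_le_sum fun E _ => (hcnt B E hB _ ?_).1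
        intro φ hφ
        obtain ⟨hφ, hE⟩ := Finset.mem_filter.1 hφ
        obtain ⟨r1, r2, r3⟩ := hRs φ hφ
        refine ⟨r1, r2, r3, ?_⟩
        rw [← hE]
        exact he φ hφ
    _ = C * (B ^ (1 / (a : ℝ)) * Real.log B ^ (N - 1)) *
        ∑ E ∈ Rs.image e, ((Nat.card G : ℝ) ^ E.card * nr E ^ (1 / (4 * (a : ℝ))) *
        ∏ v ∈ E, (nm v : ℝ) ^ (-((co a v : ℝ) / (a : ℝ)))) := by
        rw [Finset.mul_sum]
        exact Finset.sum_congr rfl fun E _ => by ring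
    _ ≤ C * (B ^ (1 / (a : ℝ)) * Real.log B ^ (N - 1)) * C₃ :=
        mul_le_mul_of_nonneg_left (hsum _) (mul_nonneg hC.le hX)
    _ = _ := by ring

end H77.PLF
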