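import Pool.Agent.H77.PLF.Gx

/-!
# H77-PLF-LOW: lower bounds and the groups (MP_b39724_nt)

* `clox`: the lower bound `LBd`, from `P` to `G`.
* `exists_gx`: the projections of a nilpotent group whose Sylow `p`-subgroup is generated by given classes of elements of order `p`.
* `akn3`: fields with the group `G` and roots of unity.
-/

set_option autoImplicit false

open scoped NumberField
open IsDedekindDomain H38.ML
open scoped Classical

noncomputable section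

namespace H77.PLF

open H63.MA H38.BB H38.BG H57.PC H57.BRA H63.BU H77.PC3 H57.CC H38.AS H77.S0T H77.FLD H77.UX

theorem clox {K : Type} [Field K] [NumberField K] {p : ℕ} {ζ : K} {D : RD0 K p ζ} {Ω : Type}
    [Field Ω] [Algebra K Ω] [IsAlgClosure K Ω] (L : LDs D Ω) {N : ℕ} {G P H : Type}
    [Group G] [Finite G] [Group P] [Group H] (Q : GX p N G P H)
    (hco : Nat.Coprime (Nat.card P) (Nat.card H)) (χ : Gal(Ω/K) →* H) (hχ : FT χ)
    (hχs : Function.Surjective χ) (hχu : ∀ v, v ∉ D.S0 → ∀ τ ∈ inr L v, χ τ = 1)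
    (h : LBd L Q.cP.g) : LBd L Q.cl.g := by
  have hPf : Finite P := Finite.of_surjective _ Q.prs
  have hHf : Finite H := Finite.of_surjective _ Q.phs
  have hbij : Function.Bijective (Q.pr.prod Q.ph) := by
    refine ⟨fun x y hxy => ?_, pair_surj hco _ _ Q.prs Q.phs⟩
    rw [MonoidHom.prod_apply, MonoidHom.prod_apply, Prod.mk.injEq] at hxy
    exact Q.inj x y hxy.1 hxy.2
  obtain ⟨e, he⟩ : ∃ e : G ≃* P × H, ∀ x, e x = (Q.pr x, Q.ph x) :=
    ⟨MulEquiv.ofBijective (Q.pr.prod Q.ph) hbij, fun x => rfl⟩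
  have hg : ∀ i, e.symm (Q.cP.g i, 1) = Q.cl.g i := by
    intro i
    rw [MulEquiv.symm_apply_eq, he, Q.hcl, Q.hH (Q.ph (Q.cl.g i)) (by
      rw [← map_pow, Q.cl.pow, map_one])]
  obtain ⟨C, X₀, hC, hX₀, hlow⟩ := h
  refine ⟨C, X₀, hC, hX₀, fun X hX => ?_⟩
  obtain ⟨Rs, hRs, hφ⟩ := hlow X hX
  obtain ⟨F, hF⟩ : ∃ F : (Gal(Ω/K) →* P) → (Gal(Ω/K) →* G), ∀ ψ σ, F ψ σ = e.symm (ψ σ, χ σ) :=
    ⟨fun ψ => e.symm.toMonoidHom.comp (ψ.prod χ), fun ψ σ => rfl⟩
  have hinj : Function.Injective F := by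
    intro ψ ψ' h
    apply MonoidHom.ext
    intro σ
    have h1 : F ψ σ = F ψ' σ := by rw [h]
    rw [hF, hF] at h1
    exact congrArg Prod.fst (e.symm.injective h1)
  refine ⟨Rs.image F, by rw [Finset.card_image_of_injective _ hinj]; exact hRs, ?_⟩
  intro φ hφ'
  obtain ⟨ψ, hψ, rfl⟩ := Finset.mem_image.1 hφ'
  obtain ⟨hft, hs, T, hT1, hT2, hT3, hT4⟩ := hφ ψ hψ
  have hFe : F ψ = e.symm.toMonoidHom.comp (ψ.prod χ) := MonoidHom.ext fun σ => hF ψ σ
  refine ⟨?_, ?_, T, hT1, hT2, fun v hv => ?_, fun v hv hvT τ hτ => ?_⟩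
  · rw [hFe]
    exact ft_comp _ _ (ft_prod ψ χ hft hχ)
  · rw [hFe]
    exact e.symm.surjective.comp (pair_surj hco ψ χ hs hχs)
  · obtain ⟨i, h, hh, hpow⟩ := hT3 v hv
    refine ⟨i, e.symm (h, 1), ?_, fun τ hτ => ?_⟩
    · rw [← hg i]
      obtain ⟨c, hc⟩ := isConj_iff.1 hh
      refine isConj_iff.2 ⟨e.symm (c, 1), ?_⟩
      rw [← map_inv, ← map_mul, ← map_mul]
      congr 1
      rw [← hc]
      simp
    · obtain ⟨k, hk⟩ := Subgroup.mem_zpowers_iff.1 (hpow τ hτ)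
      refine Subgroup.mem_zpowers_iff.2 ⟨k, ?_⟩
      rw [hF, hχu v (hT1 v hv) τ hτ, ← hk, ← map_zpow]
      congr 1
      simp
  · rw [hF, hT4 v hv hvT τ hτ, hχu v hv τ hτ]
    exact map_one e.symm

theorem exists_gx {p : ℕ} (hp : p.Prime) {G : Type} [Group G] [Finite G]
    (hnil : Group.IsNilpotent G) (hpG : p ∣ Nat.card G) (S : Sylow p G)
    [hSn : (S : Subgroup G).Normal] {N : ℕ}
    (g : Fin N → G) (pow : ∀ i, g i ^ p = 1) (ne : ∀ i, g i ≠ 1)
    (uni : ∀ i j, IsConj (g i) (g j) → i = j)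
    (gen : Subgroup.closure {x | ∃ i, IsConj x (g i)} = (S : Subgroup G))
    (all : ∀ x ∈ (S : Subgroup G), x ≠ 1 → ∃ i, IsConj x (g i)) :
    ∃ Q : GX p N G S (G ⧸ (S : Subgroup G)), Q.cl.g = g ∧
      ∀ x : S, x ≠ 1 → ∃ i, IsConj x (Q.cP.g i) := by
  have : Fact p.Prime := ⟨hp⟩
  obtain ⟨f, hf, hk⟩ := nil_split hnil hp hpG S
  have hgS : ∀ i, g i ∈ (S : Subgroup G) := by
    intro i
    rw [← gen]
    exact Subgroup.subset_closure ⟨i, IsConj.refl _⟩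
  -- conjugation by elements of `G` is conjugation by elements of `S`
  have hcj : ∀ (y : G) (x : S), y * (x : G) * y⁻¹ = (f y : G) * x * (f y : G)⁻¹ := by
    intro y x
    have e1 : f ((f y : G)⁻¹ * y) = 1 := by
      rw [map_mul, map_inv, hf (f y), inv_mul_cancel]
    obtain ⟨k, hk'⟩ := S.isPGroup' x
    have e2 : (x : G) * ((f y : G)⁻¹ * y) = ((f y : G)⁻¹ * y) * x :=
      nil_comm hnil hp ⟨k, congrArg Subtype.val hk'⟩ (hk _ e1)
    calc y * (x : G) * y⁻¹ = (f y : G) * (((f y : G)⁻¹ * y) * x) * y⁻¹ := by group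
      _ = (f y : G) * (x * ((f y : G)⁻¹ * y)) * y⁻¹ := by rw [e2]
      _ = _ := by group
  have hconj : ∀ x y : S, IsConj (x : G) (y : G) → IsConj x y := by
    intro x y h
    obtain ⟨c, hc⟩ := isConj_iff.1 h
    refine isConj_iff.2 ⟨f c, Subtype.ext ?_⟩
    rw [hcj c x] at hc
    exact hc
  have hconj' : ∀ x y : S, IsConj x y → IsConj (x : G) (y : G) := fun x y h =>
    (S : Subgroup G).subtype.map_isConj h
  refine ⟨{
    pr := f
    prs := fun x => ⟨x, hf x⟩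
    ph := QuotientGroup.mk' (S : Subgroup G)
    phs := QuotientGroup.mk'_surjective _
    inj := fun x y h1 h2 => by
      have h3 : x⁻¹ * y ∈ (S : Subgroup G) := QuotientGroup.eq.1 h2
      have h4 : f (x⁻¹ * y) = 1 := by
        rw [map_mul, map_inv, h1, inv_mul_cancel]
      have h5 := hf ⟨x⁻¹ * y, h3⟩
      change f (x⁻¹ * y) = _ at h5
      rw [h4] at h5
      have h6 := congrArg Subtype.val h5
      exact inv_mul_eq_one.1 h6.symm
    hH := fun h hh => by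
      have h1 : orderOf h ∣ p := orderOf_dvd_of_pow_eq_one hh
      have h2 : orderOf h ∣ Nat.card (G ⧸ (S : Subgroup G)) := orderOf_dvd_natCard h
      have h3 : ¬ p ∣ Nat.card (G ⧸ (S : Subgroup G)) := by
        have h5 := S.not_dvd_index
        rwa [Subgroup.index] at h5
      rcases (Nat.dvd_prime hp).1 h1 with h5 | h5
      · exact orderOf_eq_one_iff.1 h5
      · rw [h5] at h2
        exact absurd h2 h3
    cl := ⟨g, pow, ne, uni⟩
    cP := ⟨fun i => ⟨g i, hgS i⟩, fun i => Subtype.ext (pow i),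
      fun i h => ne i (congrArg Subtype.val h), fun i j h => uni i j (hconj' _ _ h)⟩
    hcl := fun i => hf ⟨g i, hgS i⟩ }, rfl, fun x hx => ?_⟩
  obtain ⟨i, hi⟩ := all x x.2 fun h => hx (Subtype.ext h)
  exact ⟨i, hconj x ⟨g i, hgS i⟩ hi⟩

theorem akn3 (G : Type) [Group G] [Finite G] (p M : ℕ) [NeZero p] :
    ∃ K₀ : IntermediateField ℚ QBar, NumberField K₀ ∧
      ∀ K : IntermediateField ℚ QBar, K₀ ≤ K → ∀ _ : NumberField K,
        (∃ ρ : Gal(QBar/K) →* G, Function.Surjective ρ ∧ FT ρ) ∧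
        (∃ z : K, IsPrimitiveRoot z (Nat.card G)) ∧ ∃ z : K, IsPrimitiveRoot z (p ^ M) := by
  have hp2 : NeZero (p ^ M) := ⟨pow_ne_zero M (NeZero.ne p)⟩
  obtain ⟨K₀, hK₀, hK⟩ := akn (G × Multiplicative (ZMod (p ^ M)))
  refine ⟨K₀, hK₀, fun K hKK hKf => ?_⟩
  obtain ⟨⟨φ₀, hs, hφ₀⟩, ⟨z, hz⟩, hi⟩ := hK K hKK hKf
  have hc : Nat.card (G × Multiplicative (ZMod (p ^ M))) = Nat.card G * p ^ M := by
    rw [Nat.card_prod, Nat.card_congr Multiplicative.toAdd, Nat.card_zmod]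
  have hpos : 0 < Nat.card (G × Multiplicative (ZMod (p ^ M))) := Nat.card_pos
  refine ⟨⟨(MonoidHom.fst G (Multiplicative (ZMod (p ^ M)))).comp φ₀, ?_, ft_comp _ _ hφ₀⟩,
    ⟨z ^ p ^ M, hz.pow hpos (by rw [hc, mul_comm])⟩, z ^ Nat.card G,
    hz.pow hpos (by rw [hc])⟩
  intro x
  obtain ⟨σ, hσ⟩ := hs (x, 1)
  refine ⟨σ, ?_⟩
  rw [MonoidHom.comp_apply, hσ]
  rfl

end H77.PLF
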