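import Pool.Agent.H57.D2.Fld
import Pool.Agent.H77.PLF.Fix

/-!
# H77 PLF ANY: the final statement of stage 1 (all classes, exponent `p`; class at most three), from `PLv p`
-/

open H38.ML.Spec

theorem H77.PLF.any_class
    (n : ℕ) (hn : 2 ≤ n) (G : Subgroup (Equiv.Perm (Fin n)))
    (hG : MulAction.IsPretransitive G (Fin n)) (hnil : Group.IsNilpotent G) (p : ℕ)
    (hp : p.Prime) (hPL : p ≠ 2 → H77.PLF.PLv p) (S : Sylow p G)
    (hS : Subgroup.closure {h : G | h ≠ 1 ∧ ind (h : Equiv.Perm (Fin n)) = indG G} =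
      (S : Subgroup G)) :
    ∃ K₀ : IntermediateField ℚ (AlgebraicClosure ℚ), NumberField K₀ ∧
      ∀ K : IntermediateField ℚ (AlgebraicClosure ℚ), K₀ ≤ K → ∀ _ : NumberField K,
        ((p ≠ 2 ∧ ∀ x ∈ (S : Subgroup G), x ^ p = 1) ∨
          (⁅⁅⁅(S : Subgroup G), (S : Subgroup G)⁆, (S : Subgroup G)⁆, (S : Subgroup G)⁆ = ⊥ ∧
            (p = 2 → ∀ x ∈ ⁅(S : Subgroup G), (S : Subgroup G)⁆, x ^ 2 = 1)) →
          (∀ B : ℝ, nK K (AlgebraicClosure ℚ) G B ≠ ⊤) ∧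
          ∃ C : ℝ, 0 < C ∧ Filter.Tendsto
            (fun B : ℝ => ((nK K (AlgebraicClosure ℚ) G B).toNat : ℝ) /
              (B ^ (1 / (indG G : ℝ)) * Real.log B ^ (betaAll K (AlgebraicClosure ℚ) G - 1)))
            Filter.atTop (nhds C)) ∧
        (⁅⁅⁅(S : Subgroup G), (S : Subgroup G)⁆, (S : Subgroup G)⁆, (S : Subgroup G)⁆ = ⊥ →
          ∃ C : ℝ, 0 < C ∧ ∃ B₀ : ℝ, ∀ B : ℝ, B₀ ≤ B →
          nK K (AlgebraicClosure ℚ) G B ≤
            ((⌊C * B ^ (1 / (indG G : ℝ)) *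
              Real.log B ^ (betaAll K (AlgebraicClosure ℚ) G - 1)⌋₊ : ℕ) : ℕ∞)) := by
  -- the form of the asymptotic formula
  have key : ∀ (K : IntermediateField ℚ (AlgebraicClosure ℚ)), ∀ _ : NumberField K,
      (∃ C : ℝ, 0 < C ∧ ∃ k : ℝ → ℕ, (∀ B : ℝ, nK K (AlgebraicClosure ℚ) G B = (k B : ℕ∞)) ∧
        Filter.Tendsto (fun B : ℝ => (k B : ℝ) / (B ^ (1 / (indG G : ℝ)) *
          Real.log B ^ (betaAll K (AlgebraicClosure ℚ) G - 1))) Filter.atTop (nhds C)) →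
      (∀ B : ℝ, nK K (AlgebraicClosure ℚ) G B ≠ ⊤) ∧
          ∃ C : ℝ, 0 < C ∧ Filter.Tendsto
            (fun B : ℝ => ((nK K (AlgebraicClosure ℚ) G B).toNat : ℝ) /
              (B ^ (1 / (indG G : ℝ)) * Real.log B ^ (betaAll K (AlgebraicClosure ℚ) G - 1)))
            Filter.atTop (nhds C) := by
    rintro K hK ⟨C, hC, k, hk, hl⟩
    refine ⟨fun B => ?_, C, hC, ?_⟩
    · rw [hk B]
      exact ENat.coe_ne_top _
    · refine hl.congr fun B => ?_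
      rw [hk B, ENat.toNat_coe]
  -- exponent `p`
  obtain ⟨K₁, hK₁, h₁⟩ : ∃ K₀ : IntermediateField ℚ (AlgebraicClosure ℚ), NumberField K₀ ∧
      ∀ K : IntermediateField ℚ (AlgebraicClosure ℚ), K₀ ≤ K → ∀ _ : NumberField K,
        (p ≠ 2 ∧ ∀ x ∈ (S : Subgroup G), x ^ p = 1) →
        ∃ C : ℝ, 0 < C ∧ ∃ k : ℝ → ℕ, (∀ B : ℝ, nK K (AlgebraicClosure ℚ) G B = (k B : ℕ∞)) ∧
        Filter.Tendsto (fun B : ℝ => (k B : ℝ) / (B ^ (1 / (indG G : ℝ)) *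
          Real.log B ^ (betaAll K (AlgebraicClosure ℚ) G - 1))) Filter.atTop (nhds C) := by
    by_cases h : p ≠ 2 ∧ ∀ x ∈ (S : Subgroup G), x ^ p = 1
    · obtain ⟨K₀, hK₀, h0⟩ := H77.PLF.fin_asyx n hn G hG hnil p hp h.1 (hPL h.1) S hS h.2
      exact ⟨K₀, hK₀, fun K hK hKn _ => h0 K hK hKn⟩
    · exact ⟨⊥, @NumberField.mk _ _ _ inferInstance, fun K hK hKn h' => absurd h' h⟩
  have hd₁ : FiniteDimensional ℚ K₁ := hK₁.to_finiteDimensional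
  by_cases h4 : ⁅⁅⁅(S : Subgroup G), (S : Subgroup G)⁆, (S : Subgroup G)⁆,
      (S : Subgroup G)⁆ = ⊥
  · obtain ⟨K₂, hK₂, h₂⟩ := H57.MP.fin3 n hn G hG hnil p hp S hS h4
    have hd₂ : FiniteDimensional ℚ K₂ := hK₂.to_finiteDimensional
    by_cases hE : p = 2 → ∀ x ∈ ⁅(S : Subgroup G), (S : Subgroup G)⁆, x ^ 2 = 1
    · obtain ⟨K₃, hK₃, h₃⟩ := H57.D2.fin_asy n hn G hG hnil p hp S hS h4 hE
      have hd₃ : FiniteDimensional ℚ K₃ := hK₃.to_finiteDimensional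
      refine ⟨K₂ ⊔ K₃, @NumberField.mk _ _ _ inferInstance, fun K hK hKn => ⟨fun _ => ?_,
        fun _ => (h₂ K (le_sup_left.trans hK) hKn).2⟩⟩
      exact key K hKn (h₃ K (le_sup_right.trans hK) hKn)
    · refine ⟨K₁ ⊔ K₂, @NumberField.mk _ _ _ inferInstance, fun K hK hKn => ⟨fun h => ?_,
        fun _ => (h₂ K (le_sup_right.trans hK) hKn).2⟩⟩
      rcases h with h | h
      · exact key K hKn (h₁ K (le_sup_left.trans hK) hKn h)
      · exact absurd h.2 hE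
  · refine ⟨K₁, hK₁, fun K hK hKn => ⟨fun h => ?_, fun h => absurd h h4⟩⟩
    rcases h with h | h
    · exact key K hKn (h₁ K hK hKn h)
    · exact absurd h.1 h4
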