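import Pool.Agent.H77.PLF.Defs

/-!
# H77-PLF-GX: G = P x H (MP_b39724_nt)

* `gx_sur`, `gx_srj`: `G` is the product of `P` and `H`; a homomorphism is surjective if its two components are.
* `gx_ty`: `v` is of type `i` for `φ` if and only if it is of type `i` for the component in `P` and the component in `H` is unramified.
-/

set_option autoImplicit false

open scoped NumberField
open IsDedekindDomain H38.ML
open scoped Classical

noncomputable section

namespace H77.PLF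

open H63.MA H38.BB H38.BG H57.PC H57.BRA H63.BU H77.PC3 H57.CC H38.AS H77.S0T H77.FLD

section grp

variable {p N : ℕ} {G P H : Type} [Group G] [Group P] [Group H]

theorem gx_card [Finite G] (hp : p.Prime) (Q : GX p N G P H) (hP : IsPGroup p P)
    (J : Subgroup G) (h1 : ∀ x, ∃ g ∈ J, Q.pr g = x) (h2 : ∀ y, ∃ g ∈ J, Q.ph g = y) :
    Nat.card P * Nat.card H ∣ Nat.card J := by
  haveI : Fact p.Prime := ⟨hp⟩
  haveI : Finite P := Finite.of_surjective _ Q.prs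
  haveI : Finite H := Finite.of_surjective _ Q.phs
  have e1 : Function.Surjective (Q.pr.comp J.subtype) := fun x => by
    obtain ⟨g, hg, h⟩ := h1 x
    exact ⟨⟨g, hg⟩, h⟩
  have e2 : Function.Surjective (Q.ph.comp J.subtype) := fun x => by
    obtain ⟨g, hg, h⟩ := h2 x
    exact ⟨⟨g, hg⟩, h⟩
  have d1 : Nat.card P ∣ Nat.card J := Subgroup.card_dvd_of_surjective _ e1
  have d2 : Nat.card H ∣ Nat.card J := Subgroup.card_dvd_of_surjective _ e2
  refine Nat.Coprime.mul_dvd_of_dvd_of_dvd ?_ d1 d2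
  obtain ⟨k, hk⟩ := IsPGroup.iff_card.1 hP
  rw [hk]
  refine Nat.Coprime.pow_left k ((Nat.Prime.coprime_iff_not_dvd hp).2 fun hd => ?_)
  obtain ⟨h, hh⟩ := exists_prime_orderOf_dvd_card' p hd
  have h3 : h = 1 := Q.hH h (by rw [← hh]; exact pow_orderOf_eq_one h)
  rw [h3, orderOf_one] at hh
  exact hp.one_lt.ne hh

theorem gx_inj (Q : GX p N G P H) :
    Function.Injective (Q.pr.prod Q.ph) := fun x y h =>
  Q.inj x y (congrArg Prod.fst h) (congrArg Prod.snd h)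

theorem gx_bij [Finite G] (hp : p.Prime) (Q : GX p N G P H) (hP : IsPGroup p P) :
    Function.Bijective (Q.pr.prod Q.ph) := by
  haveI : Finite P := Finite.of_surjective _ Q.prs
  haveI : Finite H := Finite.of_surjective _ Q.phs
  refine Function.Injective.bijective_of_nat_card_le (gx_inj Q) ?_
  have h := gx_card hp Q hP ⊤ (fun x => by
    obtain ⟨g, hg⟩ := Q.prs x
    exact ⟨g, Subgroup.mem_top g, hg⟩) (fun x => by
    obtain ⟨g, hg⟩ := Q.phs x
    exact ⟨g, Subgroup.mem_top g, hg⟩)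
  rw [Subgroup.card_top] at h
  rw [Nat.card_prod]
  exact Nat.le_of_dvd Nat.card_pos h

theorem gx_sur [Finite G] (hp : p.Prime) (Q : GX p N G P H) (hP : IsPGroup p P)
    (x : P) (y : H) : ∃ g, Q.pr g = x ∧ Q.ph g = y := by
  obtain ⟨g, hg⟩ := (gx_bij hp Q hP).2 (x, y)
  exact ⟨g, congrArg Prod.fst hg, congrArg Prod.snd hg⟩

theorem gx_srj [Finite G] (hp : p.Prime) (Q : GX p N G P H) (hP : IsPGroup p P)
    {Γ : Type} [Group Γ] (φ : Γ →* G) (h1 : Function.Surjective (Q.pr.comp φ))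
    (h2 : Function.Surjective (Q.ph.comp φ)) : Function.Surjective φ := by
  haveI : Finite P := Finite.of_surjective _ Q.prs
  haveI : Finite H := Finite.of_surjective _ Q.phs
  rw [← MonoidHom.range_eq_top]
  refine Subgroup.eq_top_of_card_eq _ (le_antisymm
    (Nat.le_of_dvd Nat.card_pos (Subgroup.card_subgroup_dvd_card _)) ?_)
  have h3 := gx_card hp Q hP φ.range (fun x => by
    obtain ⟨σ, hσ⟩ := h1 x
    exact ⟨φ σ, ⟨σ, rfl⟩, hσ⟩) (fun x => by
    obtain ⟨σ, hσ⟩ := h2 x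
    exact ⟨φ σ, ⟨σ, rfl⟩, hσ⟩)
  have h4 : Nat.card G = Nat.card P * Nat.card H := by
    rw [← Nat.card_prod]
    exact Nat.card_eq_of_bijective _ (gx_bij hp Q hP)
  rw [h4]
  exact Nat.le_of_dvd Nat.card_pos h3

theorem gx_cl (Q : GX p N G P H) (i : Fin N) : Q.ph (Q.cl.g i) = 1 :=
  Q.hH _ (by rw [← map_pow, Q.cl.pow, map_one])

/-- conjugacy in `G` of elements of the `p`-part -/
theorem gx_conj [Finite G] (hp : p.Prime) (Q : GX p N G P H) (hP : IsPGroup p P)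
    (x y : G) (h : IsConj (Q.pr x) (Q.pr y)) (hx : Q.ph x = 1) (hy : Q.ph y = 1) :
    IsConj x y := by
  obtain ⟨c, hc⟩ := isConj_iff.1 h
  obtain ⟨g, h1, h2⟩ := gx_sur hp Q hP c 1
  refine isConj_iff.2 ⟨g, Q.inj _ _ ?_ ?_⟩
  · rw [map_mul, map_mul, map_inv, h1, hc]
  · rw [map_mul, map_mul, map_inv, h2, hx, hy, mul_one, mul_inv_cancel]

end grp

section loc

variable {K : Type} [Field K] [NumberField K] {Ω : Type} [Field Ω] [Algebra K Ω]
  {p N : ℕ} {ζ : K} {G P H : Type} [Group G] [Group P] [Group H]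

theorem gx_ty [Finite G] (hp : p.Prime) (Q : GX p N G P H) (hP : IsPGroup p P)
    {D : RD0 K p ζ} (L : LDs D Ω) (φ : Gal(Ω/K) →* G) (i : Fin N) (v : Pl K) :
    TyC Q.cl L φ i v ↔ TyC (Q.cP) L (Q.pr.comp φ) i v ∧ ∀ τ ∈ inr L v, Q.ph (φ τ) = 1 := by
  constructor
  · rintro ⟨h1, h2, h3⟩
    refine ⟨⟨h1, ?_, fun τ hτ => ?_⟩, fun τ hτ => ?_⟩
    · have h4 := Q.pr.map_isConj h2
      rw [Q.hcl] at h4
      exact h4
    · rw [MonoidHom.comp_apply, ← map_pow, h3 τ hτ, map_one]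
    · exact Q.hH _ (by rw [← map_pow, h3 τ hτ, map_one])
  · rintro ⟨⟨h1, h2, h3⟩, h4⟩
    refine ⟨h1, ?_, fun τ hτ => ?_⟩
    · refine gx_conj hp Q hP _ _ ?_ (h4 _ (uinr_t L v)) (gx_cl Q i)
      rw [Q.hcl]
      exact h2
    · refine Q.inj _ _ ?_ ?_
      · have h5 := h3 τ hτ
        rw [MonoidHom.comp_apply, ← map_pow] at h5
        rw [h5, map_one]
      · rw [map_pow, h4 τ hτ, one_pow, map_one]

/-- unramified -/
theorem gx_un (Q : GX p N G P H) {D : RD0 K p ζ} (L : LDs D Ω)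
    (φ : Gal(Ω/K) →* G) (v : Pl K) : (∀ τ ∈ inr L v, φ τ = 1) ↔
      (∀ τ ∈ inr L v, Q.pr (φ τ) = 1) ∧ ∀ τ ∈ inr L v, Q.ph (φ τ) = 1 := by
  constructor
  · intro h
    exact ⟨fun τ hτ => by rw [h τ hτ, map_one], fun τ hτ => by rw [h τ hτ, map_one]⟩
  · rintro ⟨h1, h2⟩ τ hτ
    exact Q.inj _ _ (by rw [h1 τ hτ, map_one]) (by rw [h2 τ hτ, map_one])

theorem gx_teq (Q : GX p N G P H) (S : Finset (Pl K)) (Q' : DP K Ω)
    (φ φ' : Gal(Ω/K) →* G) : Teq S Q' φ φ' ↔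
      Teq S Q' (Q.pr.comp φ) (Q.pr.comp φ') ∧ Teq S Q' (Q.ph.comp φ) (Q.ph.comp φ') := by
  constructor
  · intro h
    exact ⟨fun v hv σ hσ => congrArg Q.pr (h v hv σ hσ),
      fun v hv σ hσ => congrArg Q.ph (h v hv σ hσ)⟩
  · rintro ⟨h1, h2⟩ v hv σ hσ
    exact Q.inj _ _ (h1 v hv σ hσ) (h2 v hv σ hσ)

omit [NumberField K] in
/-- the homomorphism with given components -/
theorem gx_pair [Finite G] (hp : p.Prime) (Q : GX p N G P H) (hP : IsPGroup p P)
    (α : Gal(Ω/K) →* P) (β : Gal(Ω/K) →* H) (hα : H38.ML.FT α) (hβ : H38.ML.FT β) :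
    ∃ φ : Gal(Ω/K) →* G, H38.ML.FT φ ∧ Q.pr.comp φ = α ∧ Q.ph.comp φ = β := by
  obtain ⟨e, he⟩ : ∃ e : G ≃* P × H, ∀ g, e g = (Q.pr g, Q.ph g) :=
    ⟨MulEquiv.ofBijective _ (gx_bij hp Q hP), fun g => rfl⟩
  have h1 : ∀ z, Q.pr (e.symm z) = z.1 ∧ Q.ph (e.symm z) = z.2 := by
    intro z
    have h2 := he (e.symm z)
    rw [e.apply_symm_apply] at h2
    exact ⟨(congrArg Prod.fst h2).symm, (congrArg Prod.snd h2).symm⟩
  refine ⟨e.symm.toMonoidHom.comp (α.prod β), ?_, ?_, ?_⟩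
  · obtain ⟨E, hE, hle⟩ := hα
    obtain ⟨E', hE', hle'⟩ := hβ
    refine ⟨E ⊔ E', inferInstance, fun u hu => ?_⟩
    have e1 : u ∈ E.fixingSubgroup := IntermediateField.fixingSubgroup_antitone le_sup_left hu
    have e2 : u ∈ E'.fixingSubgroup :=
      IntermediateField.fixingSubgroup_antitone le_sup_right hu
    have e3 : α u = 1 := hle e1
    have e4 : β u = 1 := hle' e2
    rw [MonoidHom.mem_ker]
    change e.symm (α u, β u) = 1
    rw [e3, e4]
    exact map_one e.symm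
  · ext σ
    exact (h1 _).1
  · ext σ
    exact (h1 _).2

end loc

end H77.PLF
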